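import Pool.Agent.U334.CC.Short4

/-!
# Bounded clusters of squarefree congruent numbers in the class `2` modulo `8`

Let `r` be `2` and let `a` modulo `M` be a class which contains a squarefree number `k ≡ r`
modulo `8`.

* Uniform clusters: there are `C`, `c > 0` such that for all large `X` and all `1 ≤ K ≤ c X ^ (1/4)`
  there are at least `c X ^ (1/4)` integers `Z ≤ X` such that `[Z, Z + C K ^ 4]` contains at least
  `K` squarefree congruent numbers `n ≡ r` modulo `8`, `n ≡ a` modulo `M`.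
* Fixed patterns in all short intervals: for every `K` there is ONE set `H` of `K` natural numbers such
  that EVERY interval `[X, X + D X ^ (11/12)]`, `X ≥ X₀`, contains at least `X ^ (1/6) / 4` integers `n`
  for which all the `n + h`, `h ∈ H`, are squarefree congruent numbers `≡ r` modulo `8` and `≡ a`
  modulo `M`. In particular there are bounded gaps, and bounded intervals with `K` such numbers, for
  every `K`.

Proof. For squarefree `b` and all `x`, `y` the number `b (x ^ 4 - b ^ 2 y ^ 4)` is congruent: it is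
`p q (p ^ 2 - q ^ 2) / (x y) ^ 2` for `p = x ^ 2`, `q = b y ^ 2`. For fixed `b` and `x` and the `K`
smallest admissible `y = Q w` all these numbers lie in an interval of length `C K ^ 4`; if
`x ≡ 1` modulo `Q`, `8 M ∣ Q`, they are `≡ b` modulo `8 M`. They are squarefree if the values of the
`2 K` quadratic polynomials `x ^ 2 ± b Q ^ 2 w ^ 2` are squarefree and `x`, `w` are coprime. If all
primes up to a constant divide `Q`, this holds for most pairs `(x, w)`: the primes up to
`C x` have density zero. For the patterns, `x = 1 + Q t` with `t` in an interval of length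
`N = A T ^ (2/3)` near `T`; the primes `p ≤ T ^ (2/3)` are counted trivially; for the larger ones
`x ^ 2 + c = m p ^ 2` with `m = O(T ^ (2/3))`, and every `m` belongs to at most one `t`.
-/

set_option autoImplicit false

namespace Pool.Agent.Results.MP_f126a2_nt.BoundedClusters

/-- `n` is the area of a right triangle with rational sides -/
def IsCongruent (n : ℕ) : Prop :=
  ∃ u v w : ℚ, 0 < u ∧ 0 < v ∧ 0 < w ∧ u ^ 2 + v ^ 2 = w ^ 2 ∧ u * v / 2 = (n : ℚ)

/-- **Bounded clusters of squarefree congruent numbers.** Let `r = 2` and let the class of `a` modulo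
`M` contain a squarefree number which is `≡ r` modulo `8`.

(1) There are `C`, `c > 0` and `X₀` such that for all `X ≥ X₀` and all `1 ≤ K ≤ c X ^ (1/4)` at
least `c X ^ (1/4)` integers `Z ≤ X` have at least `K` squarefree congruent numbers `n ≡ r` modulo
`8`, `n ≡ a` modulo `M`, in the interval `[Z, Z + C K ^ 4]`.

(2) For every `K ≥ 1` there are a set `H` of `K` natural numbers and `D`, `X₀` such that for all real
`X ≥ X₀` at least `X ^ (1/6) / 4` integers `n` of the interval `[X, X + D X ^ (11/12)]` are such that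
every `n + h`, `h ∈ H`, is a squarefree congruent number, `≡ r` modulo `8` and `≡ a` modulo `M`. -/
theorem result (M a r : ℕ) (hM : 1 ≤ M) (_hr : r = 2)
    (hka : ∃ k : ℕ, Squarefree k ∧ k % 8 = r ∧ k ≡ a [MOD M]) :
    (∃ C : ℕ, ∃ c : ℝ, 0 < c ∧ ∃ X₀ : ℝ, ∀ X : ℝ, X₀ ≤ X → ∀ K : ℕ, 1 ≤ K →
      (K : ℝ) ≤ c * X ^ (1 / 4 : ℝ) →
      c * X ^ (1 / 4 : ℝ) ≤ ({Z : ℕ | (Z : ℝ) ≤ X ∧
        K ≤ {n : ℕ | Z ≤ n ∧ n ≤ Z + C * K ^ 4 ∧ Squarefree n ∧ n % 8 = r ∧ n ≡ a [MOD M] ∧
          IsCongruent n}.ncard}.ncard : ℝ)) ∧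
    ∀ K : ℕ, 1 ≤ K → ∃ H : Finset ℕ, H.card = K ∧ ∃ D X₀ : ℝ, ∀ X : ℝ, X₀ ≤ X →
      1 / 4 * X ^ (1 / 6 : ℝ) ≤ ({n : ℕ | X ≤ (n : ℝ) ∧ (n : ℝ) ≤ X + D * X ^ (11 / 12 : ℝ) ∧
        ∀ h ∈ H, Squarefree (n + h) ∧ (n + h) % 8 = r ∧ n + h ≡ a [MOD M] ∧
          IsCongruent (n + h)}.ncard : ℝ) := by
  obtain ⟨k, hk, hkr, hka⟩ := hka
  exact ⟨Pool.Agent.U334.CC.uniform_class hk hkr hka hM IsCongruent
      fun n b x y hn hb hx hy h => Pool.Agent.U334.CC.triangle hn hb hx hy h,
    fun K hK => Pool.Agent.U334.CC.patternS_class hk hkr hka hM IsCongruent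
      (fun n b x y hn hb hx hy h => Pool.Agent.U334.CC.triangle hn hb hx hy h) K hK⟩

end Pool.Agent.Results.MP_f126a2_nt.BoundedClusters
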